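import Pool.Agent.MP_f7bb97_al.H87.Tensor

set_option autoImplicit false

namespace Pool.Agent.Results.MP_f7bb97_al.NotOStar

/-- The Engel commutator `[x, _n y]`, with `[x, y] = x⁻¹ y⁻¹ x y`. -/
def engelComm {G : Type} [Group G] (x y : G) : ℕ → G
  | 0 => x
  | k + 1 => (engelComm x y k)⁻¹ * y⁻¹ * engelComm x y k * y

/-- Engel groups; the length may depend on the pair. -/
def IsEngel (G : Type) [Group G] : Prop := ∀ x y : G, ∃ n : ℕ, engelComm x y n = 1

/-- The relation is compatible with multiplication on both sides. -/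
def BiInv {G : Type} [Group G] (r : G → G → Prop) : Prop :=
  ∀ a b x y : G, r x y → r (a * x * b) (a * y * b)

theorem engelComm_eq {G : Type} [Group G] (x y : G) (n : ℕ) :
    engelComm x y n = (fun z : G => z⁻¹ * y⁻¹ * z * y)^[n] x := by
  induction n with
  | zero => rfl
  | succ n ih => rw [Function.iterate_succ_apply', ← ih]; rfl

theorem cone_order {G : Type} [Group G] {P : Set G} (h1 : ∀ a ∈ P, ∀ b ∈ P, a * b ∈ P)
    (h2 : ∀ a ∈ P, ∀ g : G, g * a * g⁻¹ ∈ P) (h3 : (1 : G) ∉ P) :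
    IsPartialOrder G (fun x y => x = y ∨ x⁻¹ * y ∈ P) ∧ BiInv fun x y : G => x = y ∨ x⁻¹ * y ∈ P := by
  refine ⟨{ refl := fun _ => Or.inl rfl, trans := ?_, antisymm := ?_ }, ?_⟩
  · rintro a b c (rfl | hab) hbc
    · exact hbc
    · rcases hbc with rfl | hbc
      · exact Or.inr hab
      · right
        have := h1 _ hab _ hbc
        rwa [mul_assoc, mul_inv_cancel_left] at this
  · rintro a b (rfl | hab) hba
    · rfl
    · rcases hba with rfl | hba
      · rfl
      · have := h1 _ hab _ hba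
        rw [mul_assoc, mul_inv_cancel_left, inv_mul_cancel] at this
        exact absurd this h3
  · rintro a b x y (rfl | h)
    · exact Or.inl rfl
    · right
      have := h2 _ h b⁻¹
      convert this using 1
      group

/-- An orderable Engel group with a partial order that is contained in no total order. -/
theorem result : ∃ (G : Type) (_ : Group G), IsEngel G ∧
    (∃ t : G → G → Prop, IsLinearOrder G t ∧ BiInv t) ∧
    ∃ r : G → G → Prop, IsPartialOrder G r ∧ BiInv r ∧
      ∀ t : G → G → Prop, IsLinearOrder G t → BiInv t → ∃ x y : G, r x y ∧ ¬ t x y := by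
  by_contra hno
  obtain ⟨D⟩ := Pool.Agent.MP_f7bb97_al.H87.exists_data
  refine Pool.Agent.MP_f7bb97_al.H87.criterion D.J D.J_zero D.J_anti D.J_mul D.J_sep D.H D.H_mem
    D.H_engel D.H_nil D.e D.not_inv ?_
  rintro G _ hE ⟨Q, q1, q2, q3, q4⟩ P p1 p2 p3
  by_contra hP
  obtain ⟨o1, o2⟩ := cone_order q1 q2 q3
  obtain ⟨o3, o4⟩ := cone_order p1 p2 p3
  refine hno ⟨G, inferInstance, fun x y => ?_, ⟨_, { o1 with total := fun x y => ?_ }, o2⟩,
    _, o3, o4, fun t ht hb => ?_⟩
  · obtain ⟨n, hn⟩ := hE x y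
    exact ⟨n, (engelComm_eq x y n).trans hn⟩
  · by_cases h : x = y
    · exact Or.inl (Or.inl h)
    · rcases q4 (x⁻¹ * y) (fun e => h (inv_mul_eq_one.1 e)) with h' | h'
      · exact Or.inl (Or.inr h')
      · refine Or.inr (Or.inr ?_)
        rwa [mul_inv_rev, inv_inv] at h'
  · by_contra hc
    have hle : ∀ x y : G, x = y ∨ x⁻¹ * y ∈ P → t x y := fun x y h => by
      by_contra h'
      exact hc ⟨x, y, h, h'⟩
    refine hP ⟨{a | a ≠ 1 ∧ t 1 a}, fun a ha => ⟨fun e => p3 (e ▸ ha), hle 1 a (Or.inr ?_)⟩,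
      fun a ha b hb' => ?_, fun a ha g => ⟨fun e => ha.1 ?_, ?_⟩, fun h => h.1 rfl,
      fun a ha => ?_⟩
    · rwa [inv_one, one_mul]
    · have h1 : t a (a * b) := by simpa using hb a 1 1 b hb'.2
      refine ⟨fun e => ha.1 ?_, ht.trans _ _ _ ha.2 h1⟩
      rw [e] at h1
      exact ht.antisymm _ _ h1 ha.2
    · have : a = g⁻¹ * (g * a * g⁻¹) * g := by group
      rw [this, e]
      group
    · simpa using hb g g⁻¹ 1 a ha.2
    · rcases ht.total 1 a with h | h
      · exact Or.inl ⟨ha, h⟩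
      · refine Or.inr ⟨inv_ne_one.2 ha, ?_⟩
        simpa using hb a⁻¹ 1 a 1 h

end Pool.Agent.Results.MP_f7bb97_al.NotOStar
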